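import Mathlib
import Pool.Agent.Y112.HP.Ext

/-!
Exact norms of `I - K_n` (Fejér) and `I - P_r` (Poisson) on the Hardy space `H^4(𝕋)`: they are all
equal to the fourth root of the golden ratio.

Idea of the proof. Let `φ` be the golden ratio. For complex `w`,
`φ |1+w|^4 - |w|^4 = φ⁻¹ (|w|² + 2 φ² Re w - φ)² + 4 φ³ Re w - 2 φ² Re w²`. With `w = (f - f(0))/f(0)`
this gives the case `n = 0`, with equality when `w` maps the disc conformally onto the disc
`|w|² + 2 φ² Re w < φ`. There is a version of this identity for matrices `F, C`: the difference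
`φ tr|F|^4 - tr|F - C|^4` is a sum of squares plus real parts of traces of words that are analytic
in `F`. For `n ≥ 1` it is applied to `F(w) = f(J(w))`, where `J(w)` is the companion matrix of
`t^{n+1} = w`: `F` is analytic, `F(0)` is the Toeplitz matrix of `f`, for `|w| = 1` the matrix `F(w)` is
normal with the eigenvalues `f(z)`, `z^{n+1} = w`, and `K_n f (z)` is the corresponding diagonal entry
of `F(0)`.
-/

set_option autoImplicit false

namespace Pool.Agent.Results.MP_c466d4_an.HardyFour

open Pool.Agent.Helper418.FE Pool.Agent.Y112.HP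

/-- The norms on `H^4(𝕋)` of `I - K_n` (all `n ≥ 0`) and of `I - P_r` (all `0 ≤ r < 1`) are all equal
to `((1 + √5)/2)^{1/4}`. -/
theorem result :
    (∀ n : ℕ, IsNormIdSubConvHardy (fejer n) 4 (((1 + Real.sqrt 5) / 2) ^ (1 / 4 : ℝ))) ∧
    (∀ r : ℝ, 0 ≤ r → r < 1 →
      IsNormIdSubConvHardy (poisson r) 4 (((1 + Real.sqrt 5) / 2) ^ (1 / 4 : ℝ))) := by
  have h5 : Real.sqrt 5 * Real.sqrt 5 = 5 := Real.mul_self_sqrt (by norm_num)
  refine main_four (φ := (1 + Real.sqrt 5) / 2) (by positivity) ?_
  linear_combination h5 / 4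

end Pool.Agent.Results.MP_c466d4_an.HardyFour
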