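import Mathlib
import Pool.Agent.Y112.HP.OneMain

/-!
Exact norms of `I - K_n` (Fejér) and `I - P_r` (Poisson) on the Hardy space `H^1(𝕋)`: they are all
equal to `2/√3`.

Idea of the proof. Write `f = g h` with `|g|² = |h|² = |f|` on the circle, and let `S, T` be the lower
triangular Toeplitz matrices of size `n+1` of `g, h`. With `u = (e^{-ikx})_{0 ≤ k ≤ n}` one has
`2 (n+1) (f - K_n f)(x) = ⟨(h + T) u, (ḡ - S*) u⟩ + ⟨(h - T) u, (ḡ + S*) u⟩`. Cauchy-Schwarz, weighted with
`√3`, and integration over `x` give the upper bound. Equality holds for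
`f(z) = ((1 + z^{n+1}/√3)/(1 - z^{n+1}/√3))²`.
-/

set_option autoImplicit false

namespace Pool.Agent.Results.MP_c466d4_an.HardyOne

open Pool.Agent.Helper418.FE Pool.Agent.Y112.HP

/-- The norms on `H^1(𝕋)` of `I - K_n` (all `n ≥ 0`) and of `I - P_r` (all `0 ≤ r < 1`) are all equal
to `2/√3`. -/
theorem result :
    (∀ n : ℕ, IsNormIdSubConvHardy (fejer n) 1 (2 / Real.sqrt 3)) ∧
    (∀ r : ℝ, 0 ≤ r → r < 1 → IsNormIdSubConvHardy (poisson r) 1 (2 / Real.sqrt 3)) :=
  main_one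

end Pool.Agent.Results.MP_c466d4_an.HardyOne
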