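import Mathlib
import Pool.Agent.Y112.HP.PoisMain

/-!
For every `1 ≤ p < ∞` the norm of `I - P_r` (Poisson) on the Hardy space `H^p(𝕋)` does not depend on
`r ∈ [0, 1)`: it is the norm of `I - K_0`, `f ↦ f - f̂(0)`.

Idea of the proof. Let `s² = r`. Then `P_r(x - y) = ∫ P_s(x - θ) P_s(θ - y) dθ`, and
`∫ P_s(θ - y) f(y) dy = f(s e^{iθ})`, so by Jensen
`|f(x) - P_r f(x)|^p ≤ ∫ P_s(x - θ) |f(x) - f(s e^{iθ})|^p dθ`. Now integrate over `x` first: for a fixed
`θ` the probability measure `P_s(x - θ) dx` is the harmonic measure of the disc at the point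
`s e^{iθ}`, and a Möbius map of the disc turns the inner integral into the case `r = 0`. This gives
`≤`; the functions `f(z^N)`, `N → ∞`, give `≥`.
-/

set_option autoImplicit false

namespace Pool.Agent.Results.MP_c466d4_an.HardyPoisson

open Pool.Agent.Helper418.FE Pool.Agent.Y112.HP

/-- For all real `p ≥ 1` and `0 ≤ r < 1`, the operators `I - P_r` and `I - K_0` on `H^p(𝕋)` have the
same norm: a real number `N` is the norm of `I - P_r` on `H^p` if and only if it is the norm of
`I - K_0` on `H^p`. -/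
theorem result (p : ℝ) (hp : 1 ≤ p) (r : ℝ) (hr0 : 0 ≤ r) (hr1 : r < 1) (N : ℝ) :
    IsNormIdSubConvHardy (poisson r) p N ↔ IsNormIdSubConvHardy (fejer 0) p N :=
  main_poisson hp hr0 hr1 N

end Pool.Agent.Results.MP_c466d4_an.HardyPoisson
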