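import Pool.Agent.Y694.BT.Main

/-!
# The exact norm of `I - P` on `L^p` for averaging operators of matrix-valued type

Definitions: `Pool/Agent/Y694/BT/Defs.lean` (`Atomless`, `IsCell`, `IsJoint`, `op`,
`IsNormIdSub`), `Pool/Agent/Helper418/FEDefs.lean` (`Circ`, `μ`, `fejer`, `poisson`, `conv`, `C`,
`IsNormIdSubConv`) and `kS` in `Pool/Agent/Y694/BT/Examples.lean`.

Idea of the proof. Upper bound: for one cell let `T = m ∫ f ρ dμ` with eigenvalues `λ_i` and
eigenvectors `e_i`, and `w_i(x) = ⟨ρ(x) e_i, e_i⟩`. Then `∑ w_i = t`, `∫ w_i (f - λ_i) dμ = 0` and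
`∑ λ_i w_i (x) = ∫ k(x, x') f(x') dμ(x')`; the line inequality
`|x - m|^p ≤ C_p^p |x|^p + s (x - m)`, Jensen's inequality over `i` and over `y` and a rotation
argument give `‖f - P f‖_p ≤ C_p ‖f‖_p`. Lower bound: an atomless space carries a sequence of
pairwise independent sets of measure `α` (Sierpinski); by Bessel's inequality their indicator
functions converge weakly to `α`, so `P` maps the extremal two-valued functions to functions
which converge in `L^p` to their mean.
-/

set_option autoImplicit false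

open MeasureTheory
open Pool.Agent.Helper418.FE (Circ IsNormIdSubConv fejer poisson C)
open Pool.Agent.Y694.BT

namespace Pool.Agent.Results.MP_c466d4_an.MatrixValuedAveraging

universe u v

/-- (1) Let `P` come from a joint law of a point of the probability space `(X, μ)`, a point `y`
of a probability space `(Y, ν)` and a matrix algebra whose size may depend on `y`. For every
`1 < p < ∞` one has `‖f - P f‖_p ≤ C_p ‖f‖_p` on `L^p(μ)`, and if `μ` is atomless, then the norm
of `I - P` on `L^p(μ)` is exactly `C_p`.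
(2) The case of size one: `P = S S^*` for an arbitrary Markov operator `S` with a density.
(3) The case of one matrix algebra on the circle: for every finite nonempty set of frequencies
`s_1, …, s_m` the kernel `|∑ e^{i s_j x}|² / m` has norm `C_p`.
(4) In particular `‖I - K_n‖ = C_p` for all Fejér kernels (`n ≥ 0`) and `‖I - P_r‖ = C_p` for all
Poisson kernels (`0 ≤ r < 1`) on `L^p(𝕋)`, `1 < p < ∞`. -/
theorem result :
    (∀ (X : Type u) (Y : Type v) [MeasurableSpace X] [MeasurableSpace Y] (μ : Measure X)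
      (ν : Measure Y) [IsProbabilityMeasure μ] [IsProbabilityMeasure ν] (t : X → Y → ℝ)
      (k : X → X → Y → ℝ), IsJoint μ ν t k → ∀ p : ℝ, 1 < p →
        (∀ f : X → ℂ, MemLp f (ENNReal.ofReal p) μ →
          eLpNorm (fun x => f x - op μ ν k f x) (ENNReal.ofReal p) μ ≤
            ENNReal.ofReal (C p) * eLpNorm f (ENNReal.ofReal p) μ) ∧
        (Atomless μ → IsNormIdSub μ (op μ ν k) p (C p))) ∧
    (∀ (X : Type u) (Y : Type v) [MeasurableSpace X] [MeasurableSpace Y] (μ : Measure X)
      (ν : Measure Y) [IsProbabilityMeasure μ] [IsProbabilityMeasure ν] (t : X → Y → ℝ),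
      (Measurable fun z : X × Y => t z.1 z.2) → (∀ x y, 0 ≤ t x y) →
      (∀ x, ∫ y, t x y ∂ν = 1) → (∀ y, ∫ x, t x y ∂μ = 1) →
        IsJoint μ ν t (fun x x' y => t x y * t x' y)) ∧
    (∀ (m : ℕ) (s : Fin m → ℤ), 0 < m → Function.Injective s → ∀ p : ℝ, 1 < p →
      IsNormIdSubConv (fun x => (kS s x : ℂ)) p (C p)) ∧
    (∀ p : ℝ, 1 < p →
      (∀ n : ℕ, IsNormIdSubConv (fejer n) p (C p)) ∧
      (∀ r : ℝ, 0 ≤ r → r < 1 → IsNormIdSubConv (poisson r) p (C p))) :=
  ⟨fun _ _ _ _ _ _ _ _ _ _ hJ _ hp => ⟨fun f hf => upper hJ hp f hf, fun hμ => norm_eq hJ hμ hp⟩,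
    fun _ _ _ _ _ _ _ _ _ ht h0 hx hy => joint_one ht h0 hx hy,
    fun _ s hm hs _ hp => norm_kS hm s hs hp,
    fun _ hp => ⟨fun n => norm_fej n hp, fun _ h0 h1 => norm_poi h0 h1 hp⟩⟩

end Pool.Agent.Results.MP_c466d4_an.MatrixValuedAveraging
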